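import Pool.Agent.helper51.QS.SpecB

set_option autoImplicit false

namespace Pool.Agent.QS

open Pool.Agent.PC MvPolynomial

universe u

section lemmas

variable {A : Type u} [CommRing A]

theorem NRM_mul {Q J : Ideal A} {a : A} (c : A) (ha : Inn Q J a) : Inn Q J (c * a) := by
  obtain ⟨s, hs, h1⟩ := ha
  refine ⟨s, hs, ?_⟩
  have h3 : s * (c * a) = c * (s * a) := by ring
  rw [h3]
  exact J.mul_mem_left _ h1

theorem NRM_add {Q J : Ideal A} (hQ : Q.IsPrime) {a b : A} (ha : Inn Q J a) (hb : Inn Q J b) : Inn Q J (a + b) := by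
  obtain ⟨s, hs, h1⟩ := ha
  obtain ⟨t, ht, h2⟩ := hb
  refine ⟨s * t, fun h => (hQ.mem_or_mem h).elim hs ht, ?_⟩
  have h3 : s * t * (a + b) = t * (s * a) + s * (t * b) := by ring
  rw [h3]
  exact J.add_mem (J.mul_mem_left _ h1) (J.mul_mem_left _ h2)

theorem NRM_cancel {Q J : Ideal A} (hQ : Q.IsPrime) {s a : A} (hs : s ∉ Q) (h : Inn Q J (s * a)) : Inn Q J a := by
  obtain ⟨t, ht, h1⟩ := h
  refine ⟨t * s, fun h2 => (hQ.mem_or_mem h2).elim ht hs, ?_⟩
  rwa [mul_assoc]

theorem NRM_mono {Q Q' J J' : Ideal A} (hQ : Q ≤ Q') (hJ : J' ≤ J) {a : A} (h : Inn Q' J' a) : Inn Q J a := by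
  obtain ⟨s, hs, h1⟩ := h
  exact ⟨s, fun h2 => hs (hQ h2), hJ h1⟩

theorem NRM_mem {Q J : Ideal A} (hQ : Q.IsPrime) {a : A} (ha : a ∈ J) : Inn Q J a :=
  ⟨1, fun h => hQ.ne_top ((Ideal.eq_top_iff_one _).2 h), by rwa [one_mul]⟩

theorem NRM_trans {Q J J' : Ideal A} (hQ : Q.IsPrime) {a : A} (ha : Inn Q J' a) (hJ : ∀ b ∈ J', Inn Q J b) : Inn Q J a := by
  obtain ⟨s, hs, h1⟩ := ha
  exact NRM_cancel hQ hs (hJ _ h1)

/-- the ideal of the `b` with `b z` in the local ideal -/
def NRM_K (m J : Ideal A) (hm : m.IsPrime) (z : A) : Ideal A where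
  carrier := {b | Inn m J (b * z)}
  add_mem' := by
    intro a b ha hb
    change Inn m J ((a + b) * z)
    rw [add_mul]
    exact NRM_add hm ha hb
  zero_mem' := by
    change Inn m J (0 * z)
    rw [zero_mul]
    exact NRM_mem hm J.zero_mem
  smul_mem' := by
    intro c a ha
    change Inn m J (c * a * z)
    rw [mul_assoc]
    exact NRM_mul c ha

/-- the choice of the prime -/
theorem NRM_choice [IsNoetherianRing A] (m J : Ideal A) (hm : m.IsPrime) (r : A) (hr : ¬ Inn m J r) :
    ∃ (x : A) (Q : Ideal A), Q.IsPrime ∧ Q ≤ m ∧ ¬ Inn m J (x * r) ∧ ∀ b, b ∈ Q ↔ Inn m J (b * (x * r)) := by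
  have hne : {K : Ideal A | ∃ x, ¬ Inn m J (x * r) ∧ K = NRM_K m J hm (x * r)}.Nonempty :=
    ⟨NRM_K m J hm (1 * r), 1, by rwa [one_mul], rfl⟩
  obtain ⟨Q, ⟨x, hx, rfl⟩, hmax⟩ := set_has_maximal_iff_noetherian.2 ‹IsNoetherianRing A› _ hne
  refine ⟨x, NRM_K m J hm (x * r), ?_, ?_, hx, fun b => Iff.rfl⟩
  · constructor
    · intro h
      apply hx
      have h1 : (1 : A) ∈ NRM_K m J hm (x * r) := by rw [h]; exact Submodule.mem_top
      have h2 : Inn m J (1 * (x * r)) := h1
      rwa [one_mul] at h2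
    · intro b c hbc
      by_cases hc : c ∈ NRM_K m J hm (x * r)
      · exact Or.inr hc
      · left
        have h1 : ¬ Inn m J (c * x * r) := by
          intro h
          apply hc
          change Inn m J (c * (x * r))
          rwa [← mul_assoc]
        have h2 := hmax (NRM_K m J hm (c * x * r)) ⟨c * x, h1, rfl⟩
        have h3 : NRM_K m J hm (x * r) ≤ NRM_K m J hm (c * x * r) := by
          intro a ha
          change Inn m J (a * (c * x * r))
          have e : a * (c * x * r) = c * (a * (x * r)) := by ring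
          rw [e]
          exact NRM_mul c ha
        have h4 : b ∈ NRM_K m J hm (c * x * r) := by
          change Inn m J (b * (c * x * r))
          have e : b * (c * x * r) = b * c * (x * r) := by ring
          rw [e]
          exact hbc
        by_contra hb
        exact h2 (lt_of_le_of_ne h3 (fun h => hb (h ▸ h4)))
  · intro b hb
    by_contra hbm
    exact hx (NRM_cancel hm hbm hb)

theorem NRM_bridge (Q : Ideal A) [hQ : Q.IsPrime] (J : Ideal A) (a : A) :
    algebraMap A (Localization.AtPrime Q) a ∈ J.map (algebraMap A (Localization.AtPrime Q)) ↔ Inn Q J a := by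
  rw [IsLocalization.algebraMap_mem_map_algebraMap_iff Q.primeCompl]
  exact Iff.rfl

/-- every element of the localisation is associated to an element of `A` -/
theorem NRM_surj (Q : Ideal A) [hQ : Q.IsPrime] (x : Localization.AtPrime Q) :
    ∃ (a : A) (w : Localization.AtPrime Q), IsUnit w ∧ x * w = algebraMap A (Localization.AtPrime Q) a := by
  obtain ⟨⟨a, σ⟩, h⟩ := IsLocalization.surj Q.primeCompl x
  exact ⟨a, algebraMap A _ σ, IsLocalization.map_units _ σ, h⟩

theorem NRM_unit {L : Type u} [CommRing L] (I : Ideal L) {x w : L} (hw : IsUnit w) : x * w ∈ I ↔ x ∈ I := by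
  constructor
  · intro h
    obtain ⟨v, hv⟩ := hw.exists_right_inv
    have := I.mul_mem_right v h
    rwa [mul_assoc, hv, mul_one] at this
  · intro h
    exact I.mul_mem_right w h

theorem NRM_transfer (Q : Ideal A) [hQ : Q.IsPrime] (J1 J2 : Ideal A) (c : A) (h : ∀ x, Inn Q J1 (c * x) → Inn Q J2 x)
    (x : Localization.AtPrime Q) (hx : algebraMap A (Localization.AtPrime Q) c * x ∈ J1.map (algebraMap A (Localization.AtPrime Q))) :
    x ∈ J2.map (algebraMap A (Localization.AtPrime Q)) := by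
  obtain ⟨a, w, hw, ha⟩ := NRM_surj Q x
  have h1 : algebraMap A (Localization.AtPrime Q) (c * a) ∈ J1.map (algebraMap A (Localization.AtPrime Q)) := by
    rw [map_mul, ← ha, ← mul_assoc]
    exact Ideal.mul_mem_right _ _ hx
  rw [NRM_bridge] at h1
  have h2 := h a h1
  rw [← NRM_bridge, ← ha] at h2
  exact (NRM_unit _ hw).1 h2

end lemmas

theorem NRM (hUNM : UNM_stmt.{u}) (hDV1 : DV1_stmt.{u}) : NRM_stmt.{u} := by
  intro A _ _ _ m hm I t ht0 hrad hIm hEq hTri r s hs hint
  by_contra hcon
  have hmp : m.IsPrime := hm.isPrime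
  obtain ⟨x, Q, hQp, hQm, hz, hQ⟩ := NRM_choice m (Ideal.span {s, t}) hmp r hcon
  have hzQ : ¬ Inn Q (Ideal.span {s, t}) (x * r) := by
    rintro ⟨ρ, hρ, h1⟩
    exact hρ ((hQ ρ).2 (NRM_mem hmp h1))
  have hsQ : s ∈ Q := (hQ s).2 (NRM_mem hmp (Ideal.mul_mem_right _ _ (Ideal.subset_span (by simp))))
  have htJ : t ∈ Ideal.span {s, t} := Ideal.subset_span (by simp)
  have hspt : Ideal.span {t} ≤ Ideal.span {s, t} := by
    rw [Ideal.span_singleton_le_iff_mem]
    exact htJ
  have htQ : t ∈ Q := (hQ t).2 (NRM_mem hmp (Ideal.mul_mem_right _ _ htJ))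
  have hIQ : I ≤ Q := by
    intro b hb
    have h1 := NRM_mul (x * r) (NRM_mono le_rfl hspt (hEq.2 b hb))
    rw [mul_comm] at h1
    exact (hQ b).2 h1
  -- I in the local ring at Q
  have hIt : ∀ b ∈ I, Inn Q (Ideal.span {t}) b := fun b hb => NRM_mono hQm le_rfl (hEq.2 b hb)
  have hspI : Ideal.span {t} ≤ I := by
    rw [Ideal.span_singleton_le_iff_mem]
    exact hEq.1
  have hst : ∀ x, Inn Q (Ideal.span {t}) (s * x) → Inn Q (Ideal.span {t}) x := by
    rintro y ⟨ρ, hρ, h1⟩
    have h2 : s * (ρ * y) ∈ I := by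
      have e : s * (ρ * y) = ρ * (s * y) := by ring
      rw [e]
      exact hspI h1
    exact NRM_cancel hQp hρ (hIt _ (hs _ h2))
  rcases hTri Q hQp hQm hIQ with ⟨d, hd, hd2⟩ | ⟨v, hv, hv2⟩ | ⟨q0, hq0, q1, hq1, q2, hq2, hq0n, hr1, hr2⟩
  · -- principal
    obtain ⟨σ, hσ, hσ1⟩ := hd2 s hsQ
    obtain ⟨τ, hτ, hτ1⟩ := hd2 t htQ
    rw [Ideal.mem_span_singleton] at hσ1 hτ1
    obtain ⟨s', hs'⟩ := hσ1
    obtain ⟨t', ht'⟩ := hτ1
    have h1 : Inn Q (Ideal.span {t}) (s * (σ * t')) := by
      refine NRM_mem hQp (Ideal.mem_span_singleton.2 ⟨τ * s', ?_⟩)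
      calc s * (σ * t') = σ * s * t' := by ring
        _ = d * s' * t' := by rw [hs']
        _ = d * t' * s' := by ring
        _ = τ * t * s' := by rw [ht']
        _ = t * (τ * s') := by ring
    obtain ⟨ρ, hρ, h2⟩ := hst _ h1
    rw [Ideal.mem_span_singleton] at h2
    obtain ⟨e, he⟩ := h2
    have h3 : ρ * σ * τ = d * e := by
      have h4 : t * (ρ * σ * τ) = t * (d * e) := by
        calc t * (ρ * σ * τ) = ρ * σ * (τ * t) := by ring
          _ = ρ * σ * (d * t') := by rw [ht']
          _ = d * (ρ * (σ * t')) := by ring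
          _ = d * (t * e) := by rw [he]
          _ = t * (d * e) := by ring
      exact mul_left_cancel₀ ht0 h4
    have h5 : ρ * σ * τ ∈ Q := by
      rw [h3]
      exact Ideal.mul_mem_right _ _ hd
    rcases hQp.mem_or_mem h5 with h6 | h6
    · rcases hQp.mem_or_mem h6 with h7 | h7
      · exact hρ h7
      · exact hσ h7
    · exact hτ h6
  · -- the discrete valuation ring
    have := hQp
    set L := Localization.AtPrime Q with hL
    set al := algebraMap A L with hal
    have hmax : IsLocalRing.maximalIdeal L = Ideal.span {al t, al v} := by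
      rw [← Localization.AtPrime.map_eq_maximalIdeal (I := Q)]
      apply le_antisymm
      · rw [Ideal.map_le_iff_le_comap]
        intro b hb
        have h1 := (NRM_bridge Q _ b).2 (hv2 b hb)
        rw [Ideal.map_span, Set.image_pair] at h1
        exact h1
      · rw [Ideal.span_le]
        rintro y (rfl | rfl)
        · exact Ideal.mem_map_of_mem _ htQ
        · exact Ideal.mem_map_of_mem _ hv
    have hspan1 : (Ideal.span {t}).map al = Ideal.span {al t} := by
      rw [Ideal.map_span, Set.image_singleton]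
    have hspan2 : (Ideal.span {s, t}).map al = Ideal.span {al s, al t} := by
      rw [Ideal.map_span, Set.image_pair]
    have hradL : (Ideal.span {al t} : Ideal L).IsRadical := by
      rintro y ⟨n, hn⟩
      obtain ⟨a, w, hw, ha⟩ := NRM_surj Q y
      have h1 : al (a ^ n) ∈ (Ideal.span {t}).map al := by
        rw [hspan1, map_pow]
        have h2 : al a ^ n = y ^ n * w ^ n := by
          rw [← mul_pow, ha]
        rw [h2]
        exact Ideal.mul_mem_right _ _ hn
      obtain ⟨ρ, hρ, h3⟩ := (NRM_bridge Q _ _).1 h1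
      have h4 : ρ * a ∈ I := by
        apply hrad
        refine ⟨n + 1, ?_⟩
        have e : (ρ * a) ^ (n + 1) = ρ ^ n * a * (ρ * a ^ n) := by ring
        rw [e]
        exact Ideal.mul_mem_left _ _ (hspI h3)
      have h5 : Inn Q (Ideal.span {t}) a := NRM_cancel hQp hρ (hIt _ h4)
      have h5' : al a ∈ (Ideal.span {t}).map al := (NRM_bridge Q _ _).2 h5
      rw [hspan1] at h5'
      have h6 : y * w ∈ Ideal.span {al t} := by
        rw [ha]
        exact h5'
      exact (NRM_unit _ hw).1 h6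
    have hcond : ∀ y : L, al t ∣ al s * y → al t ∣ y := by
      intro y hy
      rw [← Ideal.mem_span_singleton, ← hspan1] at hy ⊢
      exact NRM_transfer Q _ _ s hst y hy
    have hpoly : ∃ (N : ℕ) (a : ℕ → L), 0 < N ∧ al t ∣ al r ^ N + ∑ i ∈ Finset.range N, a i * al r ^ i * al s ^ (N - i) := by
      obtain ⟨N, a, hN, h1⟩ := hint
      refine ⟨N, fun i => al (a i), hN, ?_⟩
      have h2 : al _ ∈ (Ideal.span {t}).map al := (NRM_bridge Q _ _).2 (hIt _ h1)
      rw [hspan1, Ideal.mem_span_singleton] at h2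
      simpa only [map_add, map_sum, map_mul, map_pow] using h2
    have hnoe : IsNoetherianRing L := IsLocalization.isNoetherianRing Q.primeCompl L ‹_›
    have hfin := hDV1 L (al t) (al v) hmax hradL (al r) (al s) hcond hpoly
    rw [← hspan2] at hfin
    have h7 : Inn Q (Ideal.span {s, t}) r := (NRM_bridge Q _ _).1 hfin
    exact hzQ (NRM_mul x h7)
  · have := hQp
    set L := Localization.AtPrime Q with hL
    set al := algebraMap A L with hal
    have hinj : Function.Injective al := IsLocalization.injective L (Ideal.primeCompl_le_nonZeroDivisors Q)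
    have hspan1 : (Ideal.span {t}).map al = Ideal.span {al t} := by
      rw [Ideal.map_span, Set.image_singleton]
    have hspan2 : (Ideal.span {s, t}).map al = Ideal.span {al s, al t} := by
      rw [Ideal.map_span, Set.image_pair]
    have hspan3 : (Ideal.span {q0}).map al = Ideal.span {al q0} := by
      rw [Ideal.map_span, Set.image_singleton]
    have hspan4 : (Ideal.span {q0, q1}).map al = Ideal.span {al q0, al q1} := by
      rw [Ideal.map_span, Set.image_pair]
    have hcond : ∀ y : L, al t ∣ al s * y → al t ∣ y := by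
      intro y hy
      rw [← Ideal.mem_span_singleton, ← hspan1] at hy ⊢
      exact NRM_transfer Q _ _ s hst y hy
    have hc1 : ∀ y : L, al q0 ∣ al q1 * y → al q0 ∣ y := by
      intro y hy
      rw [← Ideal.mem_span_singleton, ← hspan3] at hy ⊢
      exact NRM_transfer Q _ _ q1 hr1 y hy
    have hc2 : ∀ y : L, al q2 * y ∈ Ideal.span {al q0, al q1} → y ∈ Ideal.span {al q0, al q1} := by
      intro y hy
      rw [← hspan4] at hy ⊢
      exact NRM_transfer Q _ _ q2 hr2 y hy
    have hzq : ∀ q ∈ Q, al (x * r) * al q ∈ Ideal.span {al s, al t} := by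
      intro q hq
      have h1 : al (q * (x * r)) ∈ (Ideal.span {s, t}).map al := (NRM_bridge Q _ _).2 (NRM_mono hQm le_rfl ((hQ q).1 hq))
      rw [hspan2, map_mul, mul_comm] at h1
      exact h1
    have hfin := hUNM L (al s) (al t) (al (x * r)) (al q0) (al q1) (al q2)
      (fun h => ht0 (hinj (by rw [h, map_zero]))) hcond (fun h => hq0n (hinj (by rw [h, map_zero]))) hc1 hc2
      (hzq q0 hq0) (hzq q1 hq1) (hzq q2 hq2)
    rw [← hspan2] at hfin
    exact hzQ ((NRM_bridge Q _ _).1 hfin)

end Pool.Agent.QS
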