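import Pool.Agent.helper4.QS.Spec

/-!
# Quantum cat maps at the shortest periods, module PAIR: evaluation at two sites
-/

set_option autoImplicit false

open scoped BigOperators ComplexOrder ComplexConjugate Topology

namespace Pool.Agent.QS

open Pool.Agent.helper86.CM Filter

noncomputable section

theorem PAIR_geo (q : ℝ) (h0 : 0 ≤ q) (h1 : q ≤ 1 / 2) (s : Finset ℕ) (φ : ℕ → ℕ) (M : ℕ)
    (hinj : Set.InjOn φ s) (h : ∀ j ∈ s, 1 ≤ φ j ∧ φ j ≤ M) : ∑ j ∈ s, q ^ φ j ≤ 2 * q := by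
  classical
  have e1 : ∑ j ∈ s, q ^ φ j = ∑ e ∈ s.image φ, q ^ e := (Finset.sum_image hinj).symm
  have e2 : ∑ e ∈ s.image φ, q ^ e ≤ ∑ e ∈ Finset.Ico 1 (M + 1), q ^ e := by
    refine Finset.sum_le_sum_of_subset_of_nonneg ?_ (fun _ _ _ => pow_nonneg h0 _)
    intro e he
    obtain ⟨j, hj, rfl⟩ := Finset.mem_image.1 he
    have := h j hj
    rw [Finset.mem_Ico]
    omega
  have e3 : ∑ e ∈ Finset.Ico 1 (M + 1), q ^ e = q * ∑ d ∈ Finset.range M, q ^ d := by
    rw [Finset.sum_Ico_eq_sum_range, Finset.mul_sum]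
    refine Finset.sum_congr rfl fun d _ => ?_
    rw [pow_add, pow_one]
  have e4 : (1 - q) * ∑ d ∈ Finset.range M, q ^ d = 1 - q ^ M := mul_neg_geom_sum q M
  have e5 : 0 ≤ q ^ M := pow_nonneg h0 _
  have e6 : 0 ≤ ∑ d ∈ Finset.range M, q ^ d := Finset.sum_nonneg fun _ _ => pow_nonneg h0 _
  have e7 : ∑ d ∈ Finset.range M, q ^ d ≤ 2 := by nlinarith
  rw [e1]
  refine e2.trans ?_
  rw [e3]
  nlinarith

theorem PAIR_sum2 {M : Type} [AddCommMonoid M] (f : ℕ → PP → M) (hf : ∀ j, f j 0 = 0) {J i i' : ℕ}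
    (hi : i < J) (hi' : i' < J) (hne : i ≠ i') (u u' : PP) :
    ∑ j ∈ Finset.range J, f j (if j = i then u else if j = i' then u' else 0) = f i u + f i' u' := by
  have h : ∀ j, f j (if j = i then u else if j = i' then u' else 0) =
      (if j = i then f i u else 0) + (if j = i' then f i' u' else 0) := by
    intro j
    by_cases h1 : j = i
    · subst h1
      simp [hne]
    · by_cases h2 : j = i'
      · subst h2
        simp [h1]
      · simp [h1, h2, hf]
  simp only [h]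
  rw [Finset.sum_add_distrib, Finset.sum_ite_eq', Finset.sum_ite_eq',
    if_pos (Finset.mem_range.2 hi), if_pos (Finset.mem_range.2 hi')]

theorem PAIR_prod2 (f : PP → ℂ) (hf : f 0 = 1) {J i i' : ℕ}
    (hi : i < J) (hi' : i' < J) (hne : i ≠ i') (u u' : PP) :
    ∏ j ∈ Finset.range J, f (if j = i then u else if j = i' then u' else 0) = f u * f u' := by
  have h : ∀ j : ℕ, f (if j = i then u else if j = i' then u' else 0) =
      (if j = i then f u else 1) * (if j = i' then f u' else 1) := by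
    intro j
    by_cases h1 : j = i
    · subst h1
      simp [hne]
    · by_cases h2 : j = i'
      · subst h2
        simp [h1]
      · simp [h1, h2, hf]
  simp only [h]
  rw [Finset.prod_mul_distrib, Finset.prod_ite_eq', Finset.prod_ite_eq',
    if_pos (Finset.mem_range.2 hi), if_pos (Finset.mem_range.2 hi')]

theorem PAIR_hsum {Γ : Type} [AddCommGroup Γ] {h : Γ → Γ → ℝ} (hb : Bil h) (a : Γ) (f : ℕ → Γ) (n : ℕ) :
    h a (∑ l ∈ Finset.range n, f l) = ∑ l ∈ Finset.range n, h a (f l) := by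
  induction n with
  | zero => simp [hb.zeror]
  | succ n ih => rw [Finset.sum_range_succ, Finset.sum_range_succ, hb.addr, ih]

theorem PAIR_round (n : ℕ) (x b : ℕ → ℝ) (h : ∀ l < n, ∃ z : ℤ, |x l - z| ≤ b l) :
    ∃ z : ℤ, |∑ l ∈ Finset.range n, x l - z| ≤ ∑ l ∈ Finset.range n, b l := by
  induction n with
  | zero => exact ⟨0, by simp⟩
  | succ n ih =>
    obtain ⟨z, hz⟩ := ih (fun l hl => h l (by omega))
    obtain ⟨z', hz'⟩ := h n (by omega)
    refine ⟨z + z', ?_⟩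
    rw [Finset.sum_range_succ, Finset.sum_range_succ]
    push_cast
    have e : ∑ l ∈ Finset.range n, x l + x n - ((z : ℝ) + z') =
        (∑ l ∈ Finset.range n, x l - z) + (x n - z') := by ring
    rw [e]
    exact (abs_add_le _ _).trans (add_le_add hz hz')

/-- the multiples of `N` -/
def PAIR_Z (N : ℕ) : AddSubgroup (Lat 1) where
  carrier := {z | Dv N z}
  zero_mem' := ⟨0, by simp⟩
  add_mem' := by
    rintro a b ⟨x, rfl⟩ ⟨y, rfl⟩
    exact ⟨x + y, by rw [smul_add]⟩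
  neg_mem' := by
    rintro a ⟨x, rfl⟩
    exact ⟨-x, by rw [smul_neg]⟩

/-- the sum of the phases -/
theorem PAIR_dbl (q : ℝ) (h0 : 0 ≤ q) (h1 : q ≤ 1 / 2) (J : ℕ) (a : ℕ → ℝ) (ha : ∀ l, 0 ≤ a l) :
    ∑ j ∈ Finset.range J, ∑ l ∈ Finset.range j, a l * (q ^ (j - l) + q ^ (J - (j - l))) ≤
      (∑ l ∈ Finset.range J, a l) * (4 * q) := by
  have e1 : ∀ j ∈ Finset.range J, ∑ l ∈ Finset.range j, a l * (q ^ (j - l) + q ^ (J - (j - l))) =
      ∑ l ∈ Finset.range J, if l < j then a l * (q ^ (j - l) + q ^ (J - (j - l))) else 0 := by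
    intro j hj
    rw [Finset.mem_range] at hj
    rw [← Finset.sum_filter]
    refine Finset.sum_congr ?_ fun _ _ => rfl
    ext l
    simp only [Finset.mem_range, Finset.mem_filter]
    omega
  rw [Finset.sum_congr rfl e1, Finset.sum_comm, Finset.sum_mul]
  refine Finset.sum_le_sum fun l hl => ?_
  rw [Finset.mem_range] at hl
  rw [← Finset.sum_filter, ← Finset.mul_sum]
  refine mul_le_mul_of_nonneg_left ?_ (ha l)
  rw [Finset.sum_add_distrib]
  have g1 : ∑ j ∈ (Finset.range J).filter (fun j => l < j), q ^ (j - l) ≤ 2 * q := by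
    refine PAIR_geo q h0 h1 _ (fun j => j - l) J ?_ ?_
    · intro a ha b hb hab
      simp only [Finset.coe_filter, Finset.mem_range, Set.mem_ofPred_eq] at ha hb
      have hab' : a - l = b - l := hab
      omega
    · intro j hj
      simp only [Finset.mem_filter, Finset.mem_range] at hj
      show 1 ≤ j - l ∧ j - l ≤ J
      omega
  have g2 : ∑ j ∈ (Finset.range J).filter (fun j => l < j), q ^ (J - (j - l)) ≤ 2 * q := by
    refine PAIR_geo q h0 h1 _ (fun j => J - (j - l)) J ?_ ?_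
    · intro a ha b hb hab
      simp only [Finset.coe_filter, Finset.mem_range, Set.mem_ofPred_eq] at ha hb
      have hab' : J - (a - l) = J - (b - l) := hab
      omega
    · intro j hj
      simp only [Finset.mem_filter, Finset.mem_range] at hj
      show 1 ≤ J - (j - l) ∧ J - (j - l) ≤ J
      omega
  linarith

theorem PAIR (hUNQ : UNQ_stmt) (hPH : PH_stmt) (hPH0 : PH0_stmt) (hEV : EV_stmt) (hBOX : BOX_stmt)
    (hFACE : FACE_stmt) (hPRD : PRD_stmt) (hPDB : PDB_stmt) (hLUL : LUL_stmt) : PAIR_stmt := by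
  intro B t hc
  obtain ⟨Cu, hCu1, hu⟩ := hUNQ B t hc
  obtain ⟨Cp, hCp1, hp⟩ := hPH B t hc
  obtain ⟨C0, hC01, h0⟩ := hPH0 B t hc
  obtain ⟨⟨hlam, -, -⟩, -, hlu, -⟩ := hLUL t hc.lt
  have hpi := Real.pi_pos
  refine ⟨2 + 10 * Cu + 2 * Real.pi * (2 * C0 + 24 * Cp), ?_, ?_⟩
  · have : 0 ≤ 2 * Real.pi * (2 * C0 + 24 * Cp) := by positivity
    linarith
  intro Φ hPD hΦ0 s J r R N E0 hs hJ hR hNe hCR hE0 hE0z i i' hii hi'J u u' huR hu'R
  have hR1 : (1 : ℝ) ≤ R := by exact_mod_cast hR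
  have hR0 : (0 : ℝ) < R := by linarith
  set q : ℝ := ((lam t)⁻¹) ^ s with hq
  have hlam0 : 0 < lam t := by linarith
  have hlinv0 : 0 < (lam t)⁻¹ := inv_pos.2 hlam0
  have hlinv : (lam t)⁻¹ ≤ 1 / 2 := by
    rw [inv_le_comm₀ hlam0 (by norm_num)]
    linarith
  have hq0 : 0 < q := pow_pos hlinv0 _
  have hq1 : q ≤ 1 / 2 := by
    refine le_trans ?_ hlinv
    exact pow_le_of_le_one hlinv0.le (by linarith) (by omega)
  have hsJ : s + 1 ≤ s * J := by nlinarith
  have hNs : (lam t) ^ s ≤ (N : ℝ) := by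
    have h1 := (hlu (s * J - 1)).1
    have h2 : s * J - 1 + 1 = s * J := by omega
    rw [h2, ← hNe] at h1
    push_cast at h1
    refine le_trans ?_ h1
    exact pow_le_pow_right₀ (by linarith) (by omega)
  have hN0 : (0 : ℝ) < N := lt_of_lt_of_le (pow_pos hlam0 _) hNs
  have hNq : 1 / (N : ℝ) ≤ q := by
    rw [hq, inv_pow, one_div]
    exact inv_anti₀ (pow_pos hlam0 _) hNs
  obtain ⟨hbox, -, -⟩ := hBOX
  set w : ℕ → PP := fun j => if j = i then u else if j = i' then u' else 0 with hw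
  have hiJ : i < J := by omega
  have hne : i ≠ i' := by omega
  have hwR : ∀ j, ‖w j‖ ≤ R := by
    intro j
    show ‖(if j = i then u else if j = i' then u' else 0 : PP)‖ ≤ R
    split_ifs
    · exact huR
    · exact hu'R
    · rw [norm_zero]
      exact hR0.le
  have hwsum : ∑ j ∈ Finset.range J, ‖w j‖ = ‖u‖ + ‖u'‖ :=
    PAIR_sum2 (fun _ x => ‖x‖) (fun _ => norm_zero) hiJ hi'J hne u u'
  have hwprod : ∏ j ∈ Finset.range J, Φ (w j) = Φ u * Φ u' := PAIR_prod2 Φ hΦ0 hiJ hi'J hne u u'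
  have hwsite : ∑ j ∈ Finset.range J, site B s (s * J) r j (w j) =
      site B s (s * J) r i u + site B s (s * J) r i' u' :=
    PAIR_sum2 (fun j x => site B s (s * J) r j x) (fun j => map_zero _) hiJ hi'J hne u u'
  have hCu : Cu * ((3 * (R : ℝ)) ^ 2 + 1) ≤ (lam t) ^ s := by
    refine le_trans ?_ hCR
    have e1 : 0 ≤ 2 * Real.pi * (2 * C0 + 24 * Cp) := by positivity
    have e2 : (1 : ℝ) ≤ (R : ℝ) ^ 2 := by nlinarith
    have e3 : 0 ≤ (2 + 2 * Real.pi * (2 * C0 + 24 * Cp)) * (R : ℝ) ^ 2 := by positivity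
    nlinarith
  have hEVal := hEV (Lat 1) PP (hN N) (bil_hN N) (site B s (s * J) r) (box R) (GΦ B t Φ R) E0
    (PAIR_Z N) (fun z hz => hE0z z hz) hE0 {g | ‖g‖ ≤ 3 * R} (by
      show ‖(0 : PP)‖ ≤ 3 * R
      rw [norm_zero]
      positivity) J
    (fun g hg hgs => hu s J r N (3 * R) hs (by omega) (by positivity) hNe hCu g hg hgs) w (by
      intro j _ x hx y hy
      rw [hbox] at hx hy
      show ‖w j + y - x‖ ≤ 3 * R
      have e1 := norm_sub_le (w j + y) x
      have e2 := norm_add_le (w j) y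
      have e3 := hwR j
      linarith)
  rw [hwsite] at hEVal
  rw [hEVal, ← hwprod]
  obtain ⟨hΦ1, -⟩ := hPDB PP (hh B t) (bil_hh B t) Φ hPD hΦ0
  -- the single factors
  have hterm : ∀ j ∈ Finset.range J,
      ‖fac (hN N) (site B s (s * J) r j) (box R) (GΦ B t Φ R) (w j)
        (∑ l ∈ Finset.range j, site B s (s * J) r l (w l)) - Φ (w j)‖ ≤
        2 * ‖w j‖ / R + 2 * Real.pi * (C0 * R * ‖w j‖ / N +
          3 * ∑ l ∈ Finset.range j, Cp * R * ‖w l‖ * (q ^ (j - l) + q ^ (J - (j - l)))) ∧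
      ‖fac (hN N) (site B s (s * J) r j) (box R) (GΦ B t Φ R) (w j)
        (∑ l ∈ Finset.range j, site B s (s * J) r l (w l))‖ ≤ 1 := by
    intro j hj
    rw [Finset.mem_range] at hj
    refine hFACE B t Φ hPD hΦ0 (Lat 1) (hN N) (bil_hN N) (site B s (s * J) r j) R hR (w j)
      ((hbox R (w j)).2 (hwR j)) _ _ _ ?_ ?_
    · intro x hx
      rw [hbox] at hx
      refine (h0 s (s * J) r j N x (w j) (by omega) hNe).trans ?_
      refine div_le_div_of_nonneg_right ?_ hN0.le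
      refine mul_le_mul_of_nonneg_right ?_ (norm_nonneg _)
      exact mul_le_mul_of_nonneg_left hx (by linarith)
    · intro x hx
      rw [hbox] at hx
      rw [PAIR_hsum (bil_hN N)]
      refine PAIR_round j _ _ ?_
      intro l hl
      obtain ⟨z, hz⟩ := hp s J r l j N x (w l) hs hl hj hNe
      refine ⟨z, hz.trans ?_⟩
      rw [pow_mul, pow_mul, ← hq]
      refine mul_le_mul_of_nonneg_right ?_ (by positivity)
      refine mul_le_mul_of_nonneg_right ?_ (norm_nonneg _)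
      exact mul_le_mul_of_nonneg_left hx (by linarith)
  refine (hPRD (Finset.range J) _ _ (fun j hj => (hterm j hj).2) (fun j _ => hΦ1 _)).trans ?_
  refine (Finset.sum_le_sum fun j hj => (hterm j hj).1).trans ?_
  -- the total
  have s1 : ∑ j ∈ Finset.range J, 2 * ‖w j‖ / (R : ℝ) = 2 * ((‖u‖ + ‖u'‖) / R) := by
    rw [← hwsum, ← Finset.sum_div, ← Finset.mul_sum]
    ring
  have s2 : ∑ j ∈ Finset.range J, C0 * R * ‖w j‖ / (N : ℝ) = C0 * R * (‖u‖ + ‖u'‖) * (1 / N) := by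
    rw [← hwsum, ← Finset.sum_div, ← Finset.mul_sum]
    ring
  have s3 := PAIR_dbl q hq0.le hq1 J (fun l => Cp * R * ‖w l‖) (fun l => by positivity)
  have s4 : ∑ l ∈ Finset.range J, Cp * R * ‖w l‖ = Cp * R * (‖u‖ + ‖u'‖) := by
    rw [← hwsum, Finset.mul_sum]
  rw [s4] at s3
  have hS : ‖u‖ + ‖u'‖ ≤ 2 * R := by linarith
  have hS0 : 0 ≤ ‖u‖ + ‖u'‖ := by positivity
  have t2 : C0 * R * (‖u‖ + ‖u'‖) * (1 / N) ≤ 2 * C0 * ((R : ℝ) ^ 2 * q) := by
    calc C0 * R * (‖u‖ + ‖u'‖) * (1 / N) ≤ C0 * R * (2 * R) * q := by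
          refine mul_le_mul ?_ hNq (by positivity) (by positivity)
          exact mul_le_mul_of_nonneg_left hS (by positivity)
      _ = 2 * C0 * ((R : ℝ) ^ 2 * q) := by ring
  have t3 : Cp * R * (‖u‖ + ‖u'‖) * (4 * q) ≤ 8 * Cp * ((R : ℝ) ^ 2 * q) := by
    calc Cp * R * (‖u‖ + ‖u'‖) * (4 * q) ≤ Cp * R * (2 * R) * (4 * q) := by
          refine mul_le_mul_of_nonneg_right ?_ (by positivity)
          exact mul_le_mul_of_nonneg_left hS (by positivity)
      _ = 8 * Cp * ((R : ℝ) ^ 2 * q) := by ring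
  rw [Finset.sum_add_distrib, s1, ← Finset.mul_sum, Finset.sum_add_distrib, s2, ← Finset.mul_sum]
  have t4 : 0 ≤ (‖u‖ + ‖u'‖) / (R : ℝ) := by positivity
  have t5 : 0 ≤ (R : ℝ) ^ 2 * q := by positivity
  have t6 : C0 * R * (‖u‖ + ‖u'‖) * (1 / N) + 3 * ∑ j ∈ Finset.range J, ∑ l ∈ Finset.range j,
      Cp * R * ‖w l‖ * (q ^ (j - l) + q ^ (J - (j - l))) ≤ (2 * C0 + 24 * Cp) * ((R : ℝ) ^ 2 * q) := by
    have := s3.trans t3
    nlinarith
  have t7 := mul_le_mul_of_nonneg_left t6 (show 0 ≤ 2 * Real.pi by positivity)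
  have t8 : 0 ≤ 10 * Cu + 2 * Real.pi * (2 * C0 + 24 * Cp) := by positivity
  have t9 : 0 ≤ 2 + 10 * Cu := by positivity
  have t10 := mul_nonneg t8 t4
  have t11 := mul_nonneg t9 t5
  nlinarith

end

end Pool.Agent.QS
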