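import Pool.Agent.helper4.QS.Spec

/-!
# Quantum cat maps at the shortest periods: sufficiency (SUF)
-/

open scoped BigOperators ComplexOrder ComplexConjugate Topology

namespace Pool.Agent.QS

open Pool.Agent.helper86.CM Filter

noncomputable section

theorem SUF_mem_box1 (R : ℕ) (n : Lat 1) (h : n ∈ box1 R) : ‖n‖ ≤ (R : ℝ) := by
  rw [box1, Fintype.mem_piFinset] at h
  rw [pi_norm_le_iff_of_nonneg (Nat.cast_nonneg R)]
  intro i
  have h1 := h i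
  rw [Finset.mem_Icc] at h1
  rw [Int.norm_eq_abs, abs_le]
  constructor
  · exact_mod_cast h1.1
  · exact_mod_cast h1.2

theorem SUF_box1_mem (R : ℕ) (n : Lat 1) (h : ‖n‖ ≤ (R : ℝ)) : n ∈ box1 R := by
  rw [box1, Fintype.mem_piFinset]
  rw [pi_norm_le_iff_of_nonneg (Nat.cast_nonneg R)] at h
  intro i
  have h1 := h i
  rw [Int.norm_eq_abs, abs_le] at h1
  rw [Finset.mem_Icc]
  constructor
  · exact_mod_cast h1.1
  · exact_mod_cast h1.2

theorem SUF_step (hPAR : PAR_stmt) (hWIG : WIG_stmt)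
    (A : Matrix (Fin 1 ⊕ Fin 1) (Fin 1 ⊕ Fin 1) ℤ) (hA : A ∈ Matrix.symplecticGroup (Fin 1) ℤ)
    (hth : ∀ n : Lat 1, (2 : ℤ) ∣ qf (act A 1 n) - qf n) (B : Lat 1 ≃ₗ[ℤ] Lat 1) (t : ℤ)
    (hB : Cat B t) (hBA : ∀ n, B n = act A 1 n) (Φ : PP → ℂ) (hΦ : Inv B t Φ) (j : ℕ) :
    ∃ (k N : ℕ) (_ : NeZero N) (W : Lat 1 → ℂ), j ≤ k ∧ (N : ℤ) = lu t k ∧
      W ∈ WignerSet (TT (N := N)) (act A 1) ∧
      ∀ n : Lat 1, ‖n‖ ≤ (j : ℝ) → ‖W n - Φ (n, 0)‖ ≤ 1 / ((j : ℝ) + 1) := by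
  have hε : (0 : ℝ) < 1 / ((j : ℝ) + 1) := by positivity
  have hc : (0 : ℝ) < ((box1 j).card : ℝ) + 1 := by positivity
  obtain ⟨k, N, hN, m, w, hK, h1, hNk, hw, hs⟩ := hPAR B t hB Φ hΦ j j
    ((1 / ((j : ℝ) + 1)) ^ 2 / (((box1 j).card : ℝ) + 1)) (by positivity)
  obtain ⟨W, hW, hWn⟩ := hWIG A hA hth B t hB hBA k N h1 hNk (box1 j) (fun n => Φ (n, 0))
    (1 / ((j : ℝ) + 1)) hε.le m w hw (by
      refine (Finset.sum_le_sum fun n hn => hs n (SUF_mem_box1 j n hn)).trans ?_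
      rw [Finset.sum_const, nsmul_eq_mul, mul_div_assoc', div_le_iff₀ hc]
      have h2 : (0 : ℝ) ≤ (1 / ((j : ℝ) + 1)) ^ 2 := by positivity
      nlinarith)
  exact ⟨k, N, hN, W, hK, hNk, hW, fun n hn => hWn n (SUF_box1_mem j n hn)⟩

/-- SUF: sufficiency. -/
theorem SUF (hCAT : CAT_stmt) (hINVA : INVA_stmt) (hPAR : PAR_stmt) (hWIG : WIG_stmt) :
    SUF_stmt := by
  intro A hA hth htr Φ hΦ
  obtain ⟨B, hB, hBA⟩ := hCAT A hA hth htr
  have hI : Inv B A.trace Φ := (hINVA A B hBA Φ).1 hΦ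
  choose k N hN W hk hNk hW hWn using
    fun j => SUF_step hPAR hWIG A hA hth B A.trace hB hBA Φ hI j
  refine ⟨k, N, hN, W, ?_, hNk, hW, ?_⟩
  · exact tendsto_atTop_mono hk tendsto_id
  · intro n
    rw [tendsto_iff_norm_sub_tendsto_zero]
    refine squeeze_zero' (Eventually.of_forall fun j => norm_nonneg _) ?_
      tendsto_one_div_add_atTop_nhds_zero_nat
    obtain ⟨j0, hj0⟩ := exists_nat_ge ‖n‖
    filter_upwards [eventually_ge_atTop j0] with j hj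
    exact hWn j n (hj0.trans (by exact_mod_cast hj))

end

end Pool.Agent.QS
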